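import Pool.Agent.Y160.SQ.Stmts
import Pool.Agent.Y160.SQ.Basic
import Pool.Agent.Y705.SQ.Norm

set_option autoImplicit false
set_option linter.all false

/-!
# Superelliptic curves: the ideal class group injects under extensions of the constants
-/

open Polynomial
open Pool.Agent.Y160.SQ Pool.Agent.Y705.SQ

namespace Pool.Agent.Y46.FT2

universe u v

/-! ### coefficientwise maps -/

/-- Apply a map to the coefficients. -/
noncomputable def cm {A : Type u} {B : Type v} [Semiring A] [Semiring B] (g : A → B)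
    (p : A[X]) : B[X] :=
  ∑ i ∈ Finset.range (p.natDegree + 1), monomial i (g (p.coeff i))

theorem cm_coeff {A : Type u} {B : Type v} [Semiring A] [Semiring B] (g : A → B) (hg : g 0 = 0)
    (p : A[X]) (k : ℕ) : (cm g p).coeff k = g (p.coeff k) := by
  unfold cm
  rw [finset_sum_coeff]
  by_cases hk : k < p.natDegree + 1
  · rw [Finset.sum_eq_single k]
    · rw [coeff_monomial, if_pos rfl]
    · intro j _ hj
      rw [coeff_monomial, if_neg hj]
    · intro h
      exact absurd (Finset.mem_range.2 hk) h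
  · rw [coeff_eq_zero_of_natDegree_lt (by omega : p.natDegree < k), hg]
    apply Finset.sum_eq_zero
    intro j hj
    rw [Finset.mem_range] at hj
    rw [coeff_monomial, if_neg (by omega)]

section lam

variable {ℓ : ℕ} {E : Type u} {Ω : Type v} [Field E] [Field Ω] [Algebra E Ω]

/-- the coefficientwise map on polynomials in `x` -/
noncomputable def c1 (lam : Ω →ₗ[E] E) (p : Polynomial Ω) : E[X] := cm lam p

theorem c1_coeff (lam : Ω →ₗ[E] E) (p : Polynomial Ω) (k : ℕ) :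
    (c1 lam p).coeff k = lam (p.coeff k) := cm_coeff lam (map_zero lam) p k

theorem c1_zero (lam : Ω →ₗ[E] E) : c1 lam 0 = 0 := by
  ext k
  rw [c1_coeff, coeff_zero, coeff_zero, map_zero]

theorem c1_add (lam : Ω →ₗ[E] E) (p q : Polynomial Ω) : c1 lam (p + q) = c1 lam p + c1 lam q := by
  ext k
  rw [c1_coeff, coeff_add, coeff_add, c1_coeff, c1_coeff, map_add]

theorem c1_sub (lam : Ω →ₗ[E] E) (p q : Polynomial Ω) : c1 lam (p - q) = c1 lam p - c1 lam q := by
  ext k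
  rw [c1_coeff, coeff_sub, coeff_sub, c1_coeff, c1_coeff, map_sub]

theorem c1_mul (lam : Ω →ₗ[E] E) (p : E[X]) (q : Polynomial Ω) :
    c1 lam (p.map (algebraMap E Ω) * q) = p * c1 lam q := by
  ext k
  rw [c1_coeff, coeff_mul, coeff_mul, map_sum]
  refine Finset.sum_congr rfl fun x _ => ?_
  rw [coeff_map, c1_coeff, ← Algebra.smul_def, map_smul, smul_eq_mul]

/-- the coefficientwise map on polynomials in `x` and `y` -/
noncomputable def c2 (lam : Ω →ₗ[E] E) (p : Polynomial (Polynomial Ω)) : E[X][X] := cm (c1 lam) p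

theorem c2_coeff (lam : Ω →ₗ[E] E) (p : Polynomial (Polynomial Ω)) (k : ℕ) :
    (c2 lam p).coeff k = c1 lam (p.coeff k) := cm_coeff (c1 lam) (c1_zero lam) p k

variable {f : E[X]} {f' : Polynomial Ω}

/-- the coefficientwise map on the coordinate rings -/
noncomputable def Lam (hℓ : ℓ ≠ 0) (f : E[X]) {f' : Polynomial Ω} (lam : Ω →ₗ[E] E) (a : CR ℓ f') :
    CR ℓ f :=
  AdjoinRoot.mk (X ^ ℓ - C f : E[X][X]) (c2 lam (rd hℓ a))

theorem rd_Lam (hℓ : ℓ ≠ 0) (lam : Ω →ₗ[E] E) (a : CR ℓ f') :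
    rd hℓ (Lam hℓ f lam a) = c2 lam (rd hℓ a) := by
  unfold Lam
  apply rd_mk
  intro i hi
  rw [c2_coeff, rd_big hℓ a hi, c1_zero]

theorem Lam_add (hℓ : ℓ ≠ 0) (lam : Ω →ₗ[E] E) (a b : CR ℓ f') :
    Lam hℓ f lam (a + b) = Lam hℓ f lam a + Lam hℓ f lam b := by
  apply rd_inj hℓ
  ext1 i
  rw [rd_add, rd_Lam, rd_Lam, rd_Lam, c2_coeff, coeff_add, c2_coeff, c2_coeff, rd_add, coeff_add,
    c1_add]

theorem Lam_zero (hℓ : ℓ ≠ 0) (lam : Ω →ₗ[E] E) : Lam hℓ f lam (0 : CR ℓ f') = 0 := by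
  apply rd_inj hℓ
  ext1 i
  rw [rd_Lam, rd_zero, rd_zero, c2_coeff, coeff_zero, coeff_zero, c1_zero]

theorem Lam_xp_mul (hℓ : ℓ ≠ 0) (lam : Ω →ₗ[E] E) (p : E[X]) (a : CR ℓ f') :
    Lam hℓ f lam (xp ℓ f' (p.map (algebraMap E Ω)) * a) = xp ℓ f p * Lam hℓ f lam a := by
  apply rd_inj hℓ
  ext1 i
  rw [rd_Lam, c2_coeff, rd_xp_mul, rd_xp_mul, coeff_C_mul, coeff_C_mul, rd_Lam, c2_coeff, c1_mul]

theorem Lam_yy_mul (hℓ : ℓ ≠ 0) (hf : f.map (algebraMap E Ω) = f') (lam : Ω →ₗ[E] E)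
    (a : CR ℓ f') : Lam hℓ f lam (yy ℓ f' * a) = yy ℓ f * Lam hℓ f lam a := by
  apply rd_inj hℓ
  ext1 i
  rw [rd_Lam, c2_coeff, rd_yy_mul, rd_yy_mul, coeff_sub, coeff_sub, coeff_C_mul, coeff_C_mul,
    rd_Lam, c2_coeff, c1_sub]
  have e1 : c1 lam ((X * rd hℓ a).coeff i) = (X * c2 lam (rd hℓ a)).coeff i := by
    cases i with
    | zero => rw [mul_coeff_zero, mul_coeff_zero, coeff_X_zero, coeff_X_zero, zero_mul, zero_mul,
        c1_zero]
    | succ j => rw [coeff_X_mul, coeff_X_mul, c2_coeff]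
  have e2 : (X ^ ℓ - C f' : Polynomial (Polynomial Ω)).coeff i =
      ((X ^ ℓ - C f : E[X][X]).coeff i).map (algebraMap E Ω) := by
    rw [coeff_sub, coeff_sub, coeff_X_pow, coeff_X_pow, coeff_C, coeff_C, Polynomial.map_sub]
    congr 1
    · split_ifs
      · rw [Polynomial.map_one]
      · rw [Polynomial.map_zero]
    · split_ifs
      · rw [hf]
      · rw [Polynomial.map_zero]
  rw [e1, e2, mul_comm ((rd hℓ a).coeff (ℓ - 1)), c1_mul, mul_comm (c1 lam _)]

/-- linearity over the coordinate ring -/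
theorem Lam_mul (hℓ : ℓ ≠ 0) (hf : f.map (algebraMap E Ω) = f') (lam : Ω →ₗ[E] E) (r : CR ℓ f) :
    ∀ a : CR ℓ f', Lam hℓ f lam (crMap ℓ (algebraMap E Ω) f f' hf r * a) =
      r * Lam hℓ f lam a := by
  obtain ⟨p, rfl⟩ := cr_mem r
  induction p using Polynomial.induction_on with
  | C q =>
    intro a
    show Lam hℓ f lam (crMap ℓ (algebraMap E Ω) f f' hf (xp ℓ f q) * a) = xp ℓ f q * _
    rw [crMap_xp, Lam_xp_mul]
  | add p q hp hq =>
    intro a
    rw [map_add, map_add, add_mul, Lam_add, hp, hq, add_mul]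
  | monomial n q hn =>
    intro a
    have e : AdjoinRoot.mk (X ^ ℓ - C f : E[X][X]) (C q * X ^ (n + 1)) =
        AdjoinRoot.mk (X ^ ℓ - C f : E[X][X]) (C q * X ^ n) * yy ℓ f := by
      rw [pow_succ, ← mul_assoc, map_mul]
      rfl
    rw [e, map_mul, crMap_yy, mul_assoc, hn, Lam_yy_mul hℓ hf, ← mul_assoc]

theorem Lam_one (hℓ : ℓ ≠ 0) (lam : Ω →ₗ[E] E) :
    Lam hℓ f lam (1 : CR ℓ f') = xp ℓ f (C (lam 1)) := by
  apply rd_inj hℓ
  ext i k
  rw [rd_Lam, rd_one, rd_xp, c2_coeff, c1_coeff, coeff_one, coeff_C]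
  by_cases hi : i = 0
  · subst hi
    rw [if_pos rfl, if_pos rfl, coeff_one, coeff_C]
    by_cases hk : k = 0
    · rw [if_pos hk, if_pos hk]
    · rw [if_neg hk, if_neg hk, map_zero]
  · rw [if_neg hi, if_neg hi, coeff_zero, coeff_zero, map_zero]

/-- a coefficientwise map sends the extension of an ideal into the ideal -/
theorem Lam_mem (hℓ : ℓ ≠ 0) (hf : f.map (algebraMap E Ω) = f') (lam : Ω →ₗ[E] E)
    (I : Ideal (CR ℓ f)) {z : CR ℓ f'} (hz : z ∈ I.map (crMap ℓ (algebraMap E Ω) f f' hf)) :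
    Lam hℓ f lam z ∈ I := by
  have key : ∀ s : CR ℓ f', Lam hℓ f lam (s * z) ∈ I := by
    unfold Ideal.map at hz
    induction hz using Submodule.span_induction with
    | mem x hx =>
      obtain ⟨a, ha, rfl⟩ := hx
      intro s
      rw [mul_comm, Lam_mul]
      exact I.mul_mem_right _ ha
    | zero =>
      intro s
      rw [mul_zero, Lam_zero]
      exact I.zero_mem
    | add x y _ _ hx hy =>
      intro s
      rw [mul_add, Lam_add]
      exact I.add_mem (hx s) (hy s)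
    | smul t x _ hx =>
      intro s
      rw [smul_eq_mul, ← mul_assoc]
      exact hx _
  have h := key 1
  rwa [one_mul] at h

/-- the coefficients of the transform -/
theorem PP_Lam (hℓ : ℓ ≠ 0) (hf : f.map (algebraMap E Ω) = f') (hc : ℓ.Coprime f.natDegree)
    (lam : Ω →ₗ[E] E) (a : CR ℓ f') (w : ℕ) :
    (PP hℓ (Lam hℓ f lam a)).coeff w = lam ((PP hℓ a).coeff w) := by
  have hd : f'.natDegree = f.natDegree := by rw [← hf, natDegree_map]
  have hc' : ℓ.Coprime f'.natDegree := by rw [hd]; exact hc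
  by_cases hw : ∃ i k, i < ℓ ∧ w = ℓ * k + f.natDegree * i
  · obtain ⟨i, k, hi, rfl⟩ := hw
    rw [PP_coeff hℓ hc _ hi, ← hd, PP_coeff hℓ hc' _ hi, rd_Lam, c2_coeff, c1_coeff]
  · have h1 : (PP hℓ (Lam hℓ f lam a)).coeff w = 0 := by
      by_contra h
      exact hw (PP_supp hℓ _ h)
    have h2 : (PP hℓ a).coeff w = 0 := by
      by_contra h
      have h3 := PP_supp hℓ _ h
      rw [hd] at h3
      exact hw h3
    rw [h1, h2, map_zero]

theorem rd_crMap (hℓ : ℓ ≠ 0) (hf : f.map (algebraMap E Ω) = f') (a : CR ℓ f) :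
    rd hℓ (crMap ℓ (algebraMap E Ω) f f' hf a) = (rd hℓ a).map (mapRingHom (algebraMap E Ω)) := by
  have e1 : ∀ p : E[X][X], crMap ℓ (algebraMap E Ω) f f' hf (AdjoinRoot.mk _ p) =
      AdjoinRoot.mk (X ^ ℓ - C f' : Polynomial (Polynomial Ω))
        (p.map (mapRingHom (algebraMap E Ω))) := by
    intro p
    have key : (crMap ℓ (algebraMap E Ω) f f' hf).comp (AdjoinRoot.mk (X ^ ℓ - C f : E[X][X])) =
        (AdjoinRoot.mk (X ^ ℓ - C f' : Polynomial (Polynomial Ω))).comp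
          (mapRingHom (mapRingHom (algebraMap E Ω))) := by
      apply Polynomial.ringHom_ext'
      · apply RingHom.ext
        intro q
        show crMap ℓ (algebraMap E Ω) f f' hf (xp ℓ f q) =
          AdjoinRoot.mk _ (mapRingHom (mapRingHom (algebraMap E Ω)) (C q))
        rw [crMap_xp, coe_mapRingHom, map_C]
        rfl
      · show crMap ℓ (algebraMap E Ω) f f' hf (yy ℓ f) =
          AdjoinRoot.mk _ (mapRingHom (mapRingHom (algebraMap E Ω)) X)
        rw [crMap_yy, coe_mapRingHom, map_X]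
        rfl
    exact congrArg (fun g : E[X][X] →+* CR ℓ f' => g p) key
  conv_lhs => rw [← mk_rd hℓ a, e1]
  apply rd_mk
  intro i hi
  rw [coeff_map, rd_big hℓ a hi, map_zero]

theorem PP_crMap (hℓ : ℓ ≠ 0) (hf : f.map (algebraMap E Ω) = f') (hc : ℓ.Coprime f.natDegree)
    (a : CR ℓ f) (w : ℕ) :
    (PP hℓ (crMap ℓ (algebraMap E Ω) f f' hf a)).coeff w = algebraMap E Ω ((PP hℓ a).coeff w) := by
  have hd : f'.natDegree = f.natDegree := by rw [← hf, natDegree_map]
  have hc' : ℓ.Coprime f'.natDegree := by rw [hd]; exact hc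
  by_cases hw : ∃ i k, i < ℓ ∧ w = ℓ * k + f.natDegree * i
  · obtain ⟨i, k, hi, rfl⟩ := hw
    rw [PP_coeff hℓ hc _ hi, ← hd, PP_coeff hℓ hc' _ hi, rd_crMap, coeff_map, coe_mapRingHom,
      coeff_map]
  · have h1 : (PP hℓ a).coeff w = 0 := by
      by_contra h
      exact hw (PP_supp hℓ _ h)
    have h2 : (PP hℓ (crMap ℓ (algebraMap E Ω) f f' hf a)).coeff w = 0 := by
      by_contra h
      have h3 := PP_supp hℓ _ h
      rw [hd] at h3
      exact hw h3
    rw [h1, h2, map_zero]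

/-- a functional which does not vanish at a given vector -/
theorem exists_lam {L : Ω} (hL : L ≠ 0) : ∃ lam : Ω →ₗ[E] E, lam L = 1 := by
  obtain ⟨g, hg⟩ := LinearMap.exists_leftInverse_of_injective (LinearMap.toSpanSingleton E Ω L)
    (LinearMap.ker_eq_bot.2 (smul_left_injective E hL))
  refine ⟨g, ?_⟩
  have h := congrArg (fun t : E →ₗ[E] E => t 1) hg
  simpa using h

end lam

/-- **FT-Inj**: the class group of the affine curve injects under extensions of the constants. -/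
theorem stInj (hR : StRing) (hN : StNorm) : ∀ (ℓ : ℕ) (E Ω : Type) [Field E] [Field Ω]
    [Algebra E Ω] (ζ : E) (f : E[X]) (f' : Polynomial Ω) (hf : f.map (algebraMap E Ω) = f')
    (hg : Good ℓ ζ f) (I : Ideal (CR ℓ f)), I ≠ ⊥ →
    Eqv (I.map (crMap ℓ (algebraMap E Ω) f f' hf)) ⊤ → Eqv I ⊤ := by
  intro ℓ E Ω _ _ _ ζ f f' hf hg I hI hE
  have hℓ := hg.ne
  have hc := hg.cop
  have hd : f'.natDegree = f.natDegree := by rw [← hf, natDegree_map]
  have hm' : f'.Monic := by rw [← hf]; exact hg.monic.map _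
  have hc' : ℓ.Coprime f'.natDegree := by rw [hd]; exact hc
  have hD : IsDomain (CR ℓ f) := isDom hℓ hg.monic hc
  have hD' : IsDomain (CR ℓ f') := isDom hℓ hm' hc'
  obtain ⟨a, b, ha, hb, hab⟩ := hE
  rw [Ideal.mul_top] at hab
  -- the extended ideal is principal
  obtain ⟨c, hcI, hcb⟩ : ∃ c ∈ I.map (crMap ℓ (algebraMap E Ω) f f' hf), a * c = b := by
    have h1 : b ∈ Ideal.span {a} * I.map (crMap ℓ (algebraMap E Ω) f f' hf) := by
      rw [hab]
      exact Ideal.mem_span_singleton_self b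
    exact Ideal.mem_span_singleton_mul.1 h1
  have hc0 : c ≠ 0 := by
    rintro rfl
    rw [mul_zero] at hcb
    exact hb hcb.symm
  have hpr : ∀ z ∈ I.map (crMap ℓ (algebraMap E Ω) f f' hf), ∃ t, z = c * t := by
    intro z hz
    have h1 : a * z ∈ Ideal.span {a} * I.map (crMap ℓ (algebraMap E Ω) f f' hf) :=
      Ideal.mul_mem_mul (Ideal.mem_span_singleton_self a) hz
    rw [hab, Ideal.mem_span_singleton] at h1
    obtain ⟨t, ht⟩ := h1
    refine ⟨t, mul_left_cancel₀ ha ?_⟩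
    rw [ht, ← hcb, mul_assoc]
  -- a suitable functional
  obtain ⟨lam, hlam⟩ := exists_lam (E := E)
    (leadingCoeff_ne_zero.2 (PP_ne_zero hℓ hc' hc0))
  set c₀ : CR ℓ f := Lam hℓ f lam c with hc₀
  have hc₀I : c₀ ∈ I := Lam_mem hℓ hf lam I hcI
  have hco : (PP hℓ c₀).coeff (PP hℓ c).natDegree = 1 := by
    rw [hc₀, PP_Lam hℓ hf hc, coeff_natDegree, hlam]
  have hc₀0 : c₀ ≠ 0 := by
    intro h
    rw [h, PP_zero, coeff_zero] at hco
    exact zero_ne_one hco
  have hdeg : (PP hℓ (crMap ℓ (algebraMap E Ω) f f' hf c₀)).natDegree ≤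
      (PP hℓ c).natDegree := by
    rw [natDegree_le_iff_coeff_eq_zero]
    intro k hk
    rw [PP_crMap hℓ hf hc, hc₀, PP_Lam hℓ hf hc, coeff_eq_zero_of_natDegree_lt hk, map_zero,
      map_zero]
  obtain ⟨d, hd0⟩ := hpr _ (Ideal.mem_map_of_mem _ hc₀I)
  have hφ0 : crMap ℓ (algebraMap E Ω) f f' hf c₀ ≠ 0 := by
    intro h
    apply hc₀0
    apply crMap_inj hℓ (algebraMap E Ω) hf
    rw [h, map_zero]
  have hdne : d ≠ 0 := by
    rintro rfl
    rw [mul_zero] at hd0
    exact hφ0 hd0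
  have hwd := (wd_mul hℓ hm' hc' hc0 hdne).2
  rw [← hd0] at hwd
  have hd1 : (PP hℓ d).natDegree = 0 := by omega
  obtain ⟨e, he⟩ : ∃ e : Ω, PP hℓ d = C e := ⟨_, eq_C_of_natDegree_eq_zero hd1⟩
  have hde : d = xp ℓ f' (C e) := by
    apply PP_inj hℓ hc'
    rw [he, PP_xp, expand_C]
  have he0 : e ≠ 0 := by
    rintro rfl
    rw [C_0, xp_zero] at hde
    exact hdne hde
  have hcc : c = crMap ℓ (algebraMap E Ω) f f' hf c₀ * xp ℓ f' (C e⁻¹) := by
    rw [hd0, hde, mul_assoc, ← xp_mul, ← C_mul, mul_inv_cancel₀ he0, C_1, xp_one, mul_one]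
  -- the retraction
  obtain ⟨pi, hpi⟩ := exists_lam (E := E) (one_ne_zero : (1 : Ω) ≠ 0)
  have hI2 : I = Ideal.span {c₀} := by
    apply le_antisymm
    · intro z hz
      obtain ⟨t, ht⟩ := hpr _ (Ideal.mem_map_of_mem _ hz)
      rw [hcc, mul_assoc] at ht
      have h1 : Lam hℓ f pi (crMap ℓ (algebraMap E Ω) f f' hf z) = z := by
        have h2 := Lam_mul hℓ hf pi z 1
        rw [mul_one, Lam_one, hpi, C_1, xp_one, mul_one] at h2
        exact h2
      rw [ht, Lam_mul] at h1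
      rw [Ideal.mem_span_singleton]
      exact ⟨_, h1.symm⟩
    · rw [Ideal.span_singleton_le_iff_mem]
      exact hc₀I
  refine ⟨1, c₀, one_ne_zero, hc₀0, ?_⟩
  rw [Ideal.span_singleton_one, Ideal.top_mul, Ideal.mul_top]
  exact hI2

end Pool.Agent.Y46.FT2
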